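import Pool.Agent.R284.RC.Stm
import Pool.Agent.Helper88.RB.P_exists_bdd

/-!
# RC-BALL
-/

set_option autoImplicit false
open MeasureTheory Set Filter Topology
open scoped ENNReal NNReal

namespace Pool.Agent.R46.RC

open Pool.Agent.R284.RC

theorem ball_proof : S_ball := by
  intro n q hq hqn
  obtain ⟨ρ, h1, h2, M, hM, h3⟩ := Pool.Agent.Helper88.RB.exists_bdd (n := n) hq hqn
    (K := Metric.closedBall (0 : E n) 1)
    ⟨0, Metric.ball_subset_interior_closedBall (Metric.mem_ball_self one_pos)⟩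
  refine ⟨ρ, ⟨h1⟩, h2, M.toNNReal, fun x => ?_⟩
  rw [ENNReal.coe_toNNReal hM]
  refine le_trans (le_of_eq ?_) (h3 x)
  unfold Pot Pool.Agent.Helper88.RB.PE
  refine lintegral_congr fun y => ?_
  rw [edist_dist]

end Pool.Agent.R46.RC
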